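import Pool.Agent.helper54.UG.Spec

/-!
# Row EFI: the elementary group of level `k` has finite index
-/

set_option autoImplicit false

namespace Pool.Agent.UG

open Matrix Pool.Agent.H48SL

theorem EFI : EFI_stmt := by
  intro n hn k hk M hM
  have hcol : ∀ i : Fin n, (fun l => (1 : Matrix (Fin n) (Fin n) ℤ) l i) = Pi.single i 1 := by
    intro i
    ext l
    rw [Matrix.one_apply, Pi.single_apply]
  have h1 : NQ (Fin n) ((k : ℤ) ^ 2 * (1 : Matrix (Fin n) (Fin n) ℤ).det ^ 4) ≤ M := by
    apply NQ_le_of_basis (1 : Matrix (Fin n) (Fin n) ℤ)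
    · rw [Fintype.card_fin]
      exact hn
    · intro i φ hφ
      rw [hcol] at hφ ⊢
      have hφi : φ i = 0 := by
        simpa using hφ
      apply tv_right_mem
      · intro j
        by_cases hj : j = i
        · subst hj
          rw [Pi.smul_apply, hφi, smul_zero, zero_mul]
        · rw [Pi.single_eq_of_ne hj, mul_zero]
      · intro j
        by_cases hj : j = i
        · subst hj
          rw [Pi.smul_apply, hφi, smul_zero, Pi.single_zero, tv_zero_right]
          exact Subgroup.one_mem _
        · have h2 : (Pi.single j (((k : ℤ) • φ) j) : Fin n → ℤ) = φ j • Pi.single j (k : ℤ) := by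
            rw [← Pi.single_smul, Pi.smul_apply, smul_eq_mul, smul_eq_mul, mul_comm]
          rw [h2]
          apply tv_smul_mem (single_dot (Ne.symm hj) _)
          exact hM i j (Ne.symm hj)
  rw [Matrix.det_one, one_pow, mul_one] at h1
  have h2 : (NQ (Fin n) ((k ^ 2 : ℕ) : ℤ)).FiniteIndex :=
    NQ_finiteIndex (k ^ 2) (pow_ne_zero 2 (Nat.one_le_iff_ne_zero.1 hk)) (by rw [Fintype.card_fin]; exact hn)
  rw [Nat.cast_pow] at h2
  exact Subgroup.finiteIndex_of_le h1

end Pool.Agent.UG
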